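import Pool.Agent.Helper92.BW.GoalsB
import Pool.Agent.Helper24.FR.VAL0

/-!
# BW, packet TBV: the tables of the algorithm
-/

namespace Pool.Agent.Helper69.BW

open MeasureTheory Pool.Agent.Helper81.CC Pool.Agent.Bin Pool.Agent.Helper92.VP
open Pool.Agent.Helper92.FR hiding DepStmt
open Pool.Agent.Helper92.BW

noncomputable section

/-- The first `m` tables. -/
def tm (k n G : ℕ) (cr : List (List Qn × Qn)) (Fs : List Helper92.BW.Frm) (par : List ℕ) (m : ℕ) :
    List (List BN) :=
  (List.range m).foldl (fun T v =>
    T ++ [(List.range ((2 * G + 1) ^ k)).map fun e => ent k n G cr Fs par T v e]) []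

theorem tm_succ (k n G : ℕ) (cr : List (List Qn × Qn)) (Fs : List Helper92.BW.Frm) (par : List ℕ) (m : ℕ) :
    tm k n G cr Fs par (m + 1) = tm k n G cr Fs par m ++
      [(List.range ((2 * G + 1) ^ k)).map fun e => ent k n G cr Fs par
        (tm k n G cr Fs par m) m e] := by
  unfold tm
  rw [List.range_succ, List.foldl_append]
  rfl

theorem tm_length (k n G : ℕ) (cr : List (List Qn × Qn)) (Fs : List Helper92.BW.Frm) (par : List ℕ) (m : ℕ) :
    (tm k n G cr Fs par m).length = m := by
  induction m with
  | zero => rfl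
  | succ m ih => rw [tm_succ, List.length_append, ih]; rfl

theorem tm_getD (k n G : ℕ) (cr : List (List Qn × Qn)) (Fs : List Helper92.BW.Frm) (par : List ℕ) (m : ℕ) :
    ∀ v < m, (tm k n G cr Fs par m).getD v [] =
      (List.range ((2 * G + 1) ^ k)).map fun e => ent k n G cr Fs par
        (tm k n G cr Fs par v) v e := by
  induction m with
  | zero => intro v hv; omega
  | succ m ih =>
    intro v hv
    rw [tm_succ]
    rcases Nat.lt_succ_iff_lt_or_eq.1 hv with h | h
    · rw [List.getD_append _ _ _ _ (by rw [tm_length]; exact h)]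
      exact ih v h
    · subst h
      rw [List.getD_append_right _ _ _ _ (by rw [tm_length]), tm_length]
      simp

/-- A product over a list as a product over a range. -/
theorem prod_range_val (m : ℕ) (f : ℕ → BN) :
    (((BN.prod ((List.range m).map f)).val : ℕ) : ℝ) =
      ∏ c ∈ Finset.range m, ((f c).val : ℝ) := by
  rw [BN.val_prod, List.map_map]
  induction m with
  | zero => simp
  | succ m ih =>
    rw [List.range_succ, List.map_append, List.prod_append, Finset.prod_range_succ, ← ih]
    push_cast
    simp

theorem sum_range_val (m : ℕ) (f : ℕ → BN) :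
    (((BN.sum ((List.range m).map f)).val : ℕ) : ℝ) =
      ∑ c ∈ Finset.range m, ((f c).val : ℝ) := by
  rw [BN.val_sum, List.map_map]
  induction m with
  | zero => simp
  | succ m ih =>
    rw [List.range_succ, List.map_append, List.sum_append, Finset.sum_range_succ, ← ih]
    push_cast
    simp

theorem Fs_getD (n : ℕ) (f : ℕ → Helper92.BW.Frm) (v : ℕ) (hv : v < n) :
    ((List.range n).map f).getD v [] = f v := by
  rw [List.getD_eq_getElem _ _ (by simpa using hv)]
  simp

/-- The product over the children. -/
theorem prod_children {n : ℕ} (par : ℕ → ℕ) (v : Fin n) (f : ℕ → ℝ) :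
    ∏ c ∈ Finset.range v.val, (if par c = v.val then f c else 1) =
      ∏ c : Ch par v, f c.1.val := by
  rw [← Finset.prod_filter]
  symm
  refine Finset.prod_bij (fun c _ => c.1.val) ?_ ?_ ?_ ?_
  · intro c _
    rw [Finset.mem_filter, Finset.mem_range]
    exact ⟨c.2.1, c.2.2⟩
  · intro c _ d _ h
    exact Subtype.ext (Fin.ext h)
  · intro b hb
    rw [Finset.mem_filter, Finset.mem_range] at hb
    exact ⟨⟨⟨b, hb.1.trans v.2⟩, hb.1, hb.2⟩, Finset.mem_univ _, rfl⟩
  · intro c _
    rfl

/-- The product over the roots. -/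
theorem prod_roots {n : ℕ} (par : ℕ → ℕ) (f : ℕ → ℝ) :
    ∏ c ∈ Finset.range n, (if n ≤ par c then f c else 1) =
      ∏ c : Rt par n, f c.1.val := by
  rw [← Finset.prod_filter]
  symm
  refine Finset.prod_bij (fun c _ => c.1.val) ?_ ?_ ?_ ?_
  · intro c _
    rw [Finset.mem_filter, Finset.mem_range]
    exact ⟨c.1.2, c.2⟩
  · intro c _ d _ h
    exact Subtype.ext (Fin.ext h)
  · intro b hb
    rw [Finset.mem_filter, Finset.mem_range] at hb
    exact ⟨⟨⟨b, hb.1⟩, hb.2⟩, Finset.mem_univ _, rfl⟩
  · intro c _
    rfl

/-- The packet TBV. -/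
theorem tbv (hCix : CixStmt) (hFrv : FrvStmt) (hBkv : BkvStmt) : TbvStmt := by
  intro n k par cr U G _hn hG hR hW
  set Fs : List Helper92.BW.Frm := (List.range n).map fun v => frS n k par cr U v with hFs
  have hFsv : ∀ v < n, Fs.getD v [] = frS n k par cr U v := fun v hv => by
    rw [hFs, Fs_getD n _ v hv]
  have hT : tabS n k G par cr U = tm k n G cr Fs par n := rfl
  have hTri : ∀ v < n, Tri n (k + 1) (frS n k par cr U v) := fun v hv =>
    (hFrv n k v U (fam n par cr v) hv hR.lu hR.lv' hR.span (hW.len' v hv)).1
  have hlen : ∀ v < n, ∀ e i, (gpt k n G (frS n k par cr U v) e i).length = n := by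
    intro v hv e i
    exact (hBkv n (k + 1) G _ _ (zerov n) (hTri v hv) (by simp [zerov])).1
  have hrow : ∀ v < n, ∀ e < (2 * G + 1) ^ k,
      ((tabS n k G par cr U).getD v []).getD e ⟨0⟩ =
        ent k n G cr Fs par (tm k n G cr Fs par v) v e := by
    intro v hv e he
    rw [hT, tm_getD _ _ _ _ _ _ _ v hv, List.getD_eq_getElem _ _ (by simpa using he)]
    simp
  have hchild : ∀ v < n, ∀ c < v, (tm k n G cr Fs par v).getD c [] =
      (tabS n k G par cr U).getD c [] := by
    intro v hv c hc
    rw [hT, tm_getD _ _ _ _ _ _ _ c hc, tm_getD _ _ _ _ _ _ _ c (hc.trans hv)]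
  -- the values of the children
  set chf : ℕ → ℕ → ℕ → ℕ → ℝ := fun v e i c =>
    ((((cidx k (frS n k par cr U c) G (gpt k n G (frS n k par cr U v) e i)).map fun e' =>
      ((tabS n k G par cr U).getD c []).getD e' ⟨0⟩).getD ⟨0⟩).val : ℝ) with hchf
  refine ⟨?_, ?_⟩
  · intro v e
    refine ⟨fun i c => chf v.val e.val i c.1.val, ?_, ?_⟩
    · intro i _ c
      have hc := c.1.2
      have h1 := hCix.1 n k G (frS n k par cr U c.1.val)
        (gpt k n G (frS n k par cr U v.val) e.val i) hG (hlen v.val v.2 _ _)
        (fun j hj => (hTri c.1.val hc).lg j (by omega))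
      rcases hcase : cidx k (frS n k par cr U c.1.val) G
        (gpt k n G (frS n k par cr U v.val) e.val i) with _ | e'
      · right
        refine ⟨?_, ?_⟩
        · simp only [hchf, hcase]
          simp
        · obtain ⟨j, hj, h2⟩ := h1.2 hcase
          exact ⟨⟨j, hj⟩, h2⟩
      · left
        obtain ⟨he', h2⟩ := h1.1 e' hcase
        refine ⟨⟨e', he'⟩, fun l => h2 l.val l.2, ?_⟩
        simp only [hchf, hcase]
        rfl
    · have h1 : nS n k G par cr U v e =
          (((ent k n G cr Fs par (tm k n G cr Fs par v.val) v.val e.val).val : ℕ) : ℝ) := by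
        unfold nS
        rw [hrow v.val v.2 e.val e.2]
      rw [h1]
      unfold ent
      rw [sum_range_val]
      refine Finset.sum_congr rfl fun i _ => ?_
      have htest : ((cr.all fun r => !(decide (lowr n r = v.val)) ||
          Qn.le (Qn.neg r.2) (dot r.1 (gpt k n G (Fs.getD v.val []) e.val i))) = true) ↔
          ∀ r : Ix n cr, lowS n cr r = v → -sS n cr r ≤
            ip (aS n cr r) (xS n k G par cr U v e i) := by
        rw [List.all_eq_true, hFsv v.val v.2]
        constructor
        · intro h r hr
          have h2 := h r.1 r.2.1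
          have h3 : lowr n r.1 = v.val := by
            rw [← hr]
            rfl
          simp only [h3, decide_true, Bool.not_true, Bool.false_or] at h2
          rw [Qn.le_iff, Qn.val_neg, Pool.Agent.Helper24.FR.dot_val _ n _ (hR.lr _ r.2.1)
            (hlen v.val v.2 _ _)] at h2
          exact h2
        · intro h r hr
          by_cases h3 : lowr n r = v.val
          · have h4 := h ⟨r, hr, by rw [h3]; exact v.2⟩ (Fin.ext h3)
            simp only [h3, decide_true, Bool.not_true, Bool.false_or]
            rw [Qn.le_iff, Qn.val_neg, Pool.Agent.Helper24.FR.dot_val _ n _ (hR.lr _ hr)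
              (hlen v.val v.2 _ _)]
            exact h4
          · simp [h3]
      by_cases ht : ((cr.all fun r => !(decide (lowr n r = v.val)) ||
          Qn.le (Qn.neg r.2) (dot r.1 (gpt k n G (Fs.getD v.val []) e.val i))) = true)
      · rw [if_pos ht, if_pos (htest.1 ht), prod_range_val, ← prod_children]
        refine Finset.prod_congr rfl fun c hc => ?_
        rw [Finset.mem_range] at hc
        by_cases hp : par.getD c c = v.val
        · rw [if_pos hp, if_pos hp, hFsv c (hc.trans v.2), hFsv v.val v.2,
            hchild v.val v.2 c hc]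
        · rw [if_neg hp, if_neg hp]
          simp
      · rw [if_neg ht, if_neg (fun h => ht (htest.2 h))]
        simp
  · intro e0 he0
    unfold rootp
    rw [prod_range_val]
    have h1 : ∀ c : Rt (fun x => par.getD x x) n, nS n k G par cr U c.1 e0 =
        (fun c : ℕ => ((((tabS n k G par cr U).getD c []).getD (ezero k G) ⟨0⟩).val : ℝ))
          c.1.val := by
      intro c
      unfold nS
      rw [he0]
    rw [Finset.prod_congr rfl (fun c _ => h1 c)]
    refine Eq.trans ?_ (prod_roots (fun x => par.getD x x)
      (fun c : ℕ => ((((tabS n k G par cr U).getD c []).getD (ezero k G) ⟨0⟩).val : ℝ)))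
    refine Finset.prod_congr rfl fun c _ => ?_
    by_cases hp : n ≤ par.getD c c
    · rw [if_pos hp, if_pos hp]
    · rw [if_neg hp, if_neg hp]
      simp

end

end Pool.Agent.Helper69.BW
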